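import Mathlib

set_option autoImplicit false

namespace Pool.Agent.Results.MP_d8de41_al.Exists

open Filter

universe u

def null (G : ℕ → Type u) [∀ i, Group (G i)] (U : Ultrafilter ℕ) : Subgroup (∀ i, G i) where
  carrier := {g | ∀ᶠ i in (U : Filter ℕ), g i = 1}
  one_mem' := Eventually.of_forall fun _ => rfl
  mul_mem' ha hb := (ha.and hb).mono fun i h => by simp [h.1, h.2]
  inv_mem' ha := ha.mono fun i h => by simp [h]

instance null_normal (G : ℕ → Type u) [∀ i, Group (G i)] (U : Ultrafilter ℕ) :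
    (null G U).Normal :=
  ⟨fun _ hn g => hn.mono fun i h => by simp [h]⟩

def UI (H : Type) [Group H] : Prop :=
  ∃ (G : ℕ → Type u) (_ : ∀ i, Group (G i)) (U : Ultrafilter ℕ), (∀ n, U ≠ pure n) ∧
    ∃ φ : (∀ i, G i) ⧸ null G U →* H, Function.Surjective φ

def fin : Subgroup (ℕ → DihedralGroup 3) where
  carrier := {g | ∀ᶠ i in atTop, g i = 1}
  one_mem' := Eventually.of_forall fun _ => rfl
  mul_mem' ha hb := (ha.and hb).mono fun i h => by simp [h.1, h.2]
  inv_mem' ha := ha.mono fun i h => by simp [h]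

def hh (n : ℕ) : fin := ⟨fun i => if i = n then .r 1 else 1,
  (eventually_gt_atTop n).mono fun _ h => if_neg h.ne'⟩

def cc (n : ℕ) : fin := ⟨fun i => if i ≤ n then .sr 0 else 1,
  (eventually_gt_atTop n).mono fun _ h => if_neg h.not_ge⟩

def sol {G : Type u} [Group G] (g c : ℕ → G) : ℕ → ℕ → G
  | 0, _ => 1
  | k + 1, n => g n * (sol g c k (n + 1) ^ 2 * c n * sol g c k (n + 1) ^ 2 * (c n)⁻¹)

theorem result : ∃ (H : Type) (_ : Group H), (∃ n > 0, ∀ h : H, h ^ n = 1) ∧ ¬ UI.{u} H := by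
  refine ⟨fin, inferInstance, ⟨6, by norm_num, fun h => Subtype.ext (funext fun i => ?_)⟩, ?_⟩
  · exact (by decide : ∀ a : DihedralGroup 3, a ^ 6 = 1) (h.1 i)
  rintro ⟨G, _, U, hU, φ, hφ⟩
  have hU' : (U : Filter ℕ) ≤ atTop := Nat.cofinite_eq_atTop ▸
    U.le_cofinite_or_eq_pure.resolve_right fun ⟨a, ha⟩ => hU a ha
  let ψ := φ.comp (QuotientGroup.mk' (null G U))
  have hψ : Function.Surjective ψ := hφ.comp (QuotientGroup.mk'_surjective _)
  choose g hg using fun n => hψ (hh n)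
  choose c hc using fun n => hψ (cc n)
  let x : ℕ → ∀ i, G i := fun n i => sol (fun m => g m i) (fun m => c m i) (i - n) n
  have key : ∀ n, ψ (x n) = hh n * (ψ (x (n + 1)) ^ 2 * cc n * ψ (x (n + 1)) ^ 2 * (cc n)⁻¹) := by
    intro n
    simp only [← hg, ← hc, ← map_pow, ← map_mul, ← map_inv]
    refine congrArg φ (QuotientGroup.eq.2 ?_)
    refine ((eventually_gt_atTop n).filter_mono hU').mono fun i hi => ?_
    obtain ⟨k, rfl⟩ : ∃ k, i = n + 1 + k := ⟨i - (n + 1), by omega⟩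
    simp only [Pi.mul_apply, Pi.inv_apply, Pi.pow_apply, inv_mul_eq_one, x]
    rw [show n + 1 + k - n = k + 1 by omega, show n + 1 + k - (n + 1) = k by omega]
    rfl
  have val : ∀ m n, n ≤ m → (ψ (x n)).1 m = .r 1 := by
    intro m n hn
    induction hn using Nat.decreasingInduction with
    | self =>
      rw [key]
      simp only [Subgroup.coe_mul, Subgroup.coe_inv, Subgroup.coe_pow, Pi.mul_apply, Pi.inv_apply,
        Pi.pow_apply, hh, cc, if_true, le_refl]
      exact (by decide : ∀ a : DihedralGroup 3,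
        .r 1 * (a ^ 2 * .sr 0 * a ^ 2 * (DihedralGroup.sr 0)⁻¹) = .r 1) _
    | of_succ k hk ih =>
      rw [key]
      simp only [Subgroup.coe_mul, Subgroup.coe_inv, Subgroup.coe_pow, Pi.mul_apply, Pi.inv_apply,
        Pi.pow_apply, hh, cc, if_neg hk.ne', if_neg hk.not_ge, ih]
      exact (by decide : (1 : DihedralGroup 3) * (.r 1 ^ 2 * 1 * .r 1 ^ 2 * 1⁻¹) = .r 1)
  obtain ⟨m, hm⟩ := (ψ (x 0)).2.exists
  rw [val m 0 (Nat.zero_le m)] at hm
  exact absurd hm (by decide)

end Pool.Agent.Results.MP_d8de41_al.Exists
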